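import Pool.Agent.N556.CQ.Stm
import Pool.Agent.Helper484.Crit.FG

/-! Project CQ (helper556), part QUAD: convex quadrilaterals, by helper602. -/

set_option autoImplicit false

namespace Pool.Agent.N602.CQ

open MeasureTheory Set
open Pool.Agent.N556.CQ (P cr hull S_QUAD)

/-- barycentric coordinates -/
lemma bary (a b c x : P) (hD : 0 < cr (b - a) (c - a)) (h1 : 0 ≤ cr (b - a) (x - a)) (h2 : 0 ≤ cr (c - b) (x - b))
    (h3 : 0 ≤ cr (a - c) (x - c)) : x ∈ convexHull ℝ ({a, b, c} : Set P) := by
  have ha : a ∈ convexHull ℝ ({a, b, c} : Set P) := subset_convexHull ℝ _ (by simp)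
  have hb : b ∈ convexHull ℝ ({a, b, c} : Set P) := subset_convexHull ℝ _ (by simp)
  have hc : c ∈ convexHull ℝ ({a, b, c} : Set P) := subset_convexHull ℝ _ (by simp)
  have hconv := convex_convexHull ℝ ({a, b, c} : Set P)
  have hD' : cr (b - a) (c - a) ≠ 0 := hD.ne'
  have hx : x = (cr (c - b) (x - b) / cr (b - a) (c - a)) • a + (cr (a - c) (x - c) / cr (b - a) (c - a)) • b +
      (cr (b - a) (x - a) / cr (b - a) (c - a)) • c := by
    ext
    · simp only [Prod.fst_add, Prod.smul_fst, smul_eq_mul]
      field_simp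
      simp only [cr, Prod.fst_sub, Prod.snd_sub]
      ring
    · simp only [Prod.snd_add, Prod.smul_snd, smul_eq_mul]
      field_simp
      simp only [cr, Prod.fst_sub, Prod.snd_sub]
      ring
  have hs : cr (c - b) (x - b) / cr (b - a) (c - a) + cr (a - c) (x - c) / cr (b - a) (c - a) +
      cr (b - a) (x - a) / cr (b - a) (c - a) = 1 := by
    rw [← add_div, ← add_div, div_eq_one_iff_eq hD']
    simp only [cr, Prod.fst_sub, Prod.snd_sub]
    ring
  have g1 := div_nonneg h1 hD.le
  have g2 := div_nonneg h2 hD.le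
  have g3 := div_nonneg h3 hD.le
  rw [hx]
  generalize cr (c - b) (x - b) / cr (b - a) (c - a) = u at *
  generalize cr (a - c) (x - c) / cr (b - a) (c - a) = v at *
  generalize cr (b - a) (x - a) / cr (b - a) (c - a) = w at *
  exact hconv.sum_mem (t := Finset.univ) (w := ![u, v, w]) (z := ![a, b, c])
      (by intro i _; fin_cases i <;> simp <;> assumption)
      (by simp [Fin.sum_univ_three]; linarith) (by intro i _; fin_cases i <;> simp [ha, hb, hc])
      |> (by simpa [Fin.sum_univ_three] using ·)

theorem quad : S_QUAD := by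
  intro a b c d h1 h2 h3 h4 h5
  have hpq : cr (b - a) (c - a) + cr (c - a) (d - a) = cr (c - a) (d - b) := by
    simp only [cr, Prod.fst_sub, Prod.snd_sub]
    ring
  have hsub : ∀ x : P, 0 ≤ cr (b - a) (x - a) → 0 ≤ cr (c - b) (x - b) → 0 ≤ cr (d - c) (x - c) →
      0 ≤ cr (a - d) (x - d) → x ∈ convexHull ℝ ({a, b, c} : Set P) ∪ convexHull ℝ ({a, c, d} : Set P) := by
    intro x e1 e2 e3 e4
    have k1 : cr (b - a) (x - a) + cr (c - b) (x - b) = cr (c - a) (x - a) + cr (b - a) (c - a) := by
      simp only [cr, Prod.fst_sub, Prod.snd_sub]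
      ring
    have k2 : cr (d - c) (x - c) + cr (a - d) (x - d) = cr (a - c) (x - c) + cr (c - a) (d - a) := by
      simp only [cr, Prod.fst_sub, Prod.snd_sub]
      ring
    have k3 : cr (a - c) (x - c) = -cr (c - a) (x - a) := by
      simp only [cr, Prod.fst_sub, Prod.snd_sub]
      ring
    rcases h1.eq_or_lt with hp | hp
    · right
      exact bary a c d x (by linarith) (by linarith) e3 e4
    · rcases h2.eq_or_lt with hq | hq
      · left
        exact bary a b c x hp e1 e2 (by linarith)
      · rcases le_total 0 (cr (c - a) (x - a)) with hw | hw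
        · right
          exact bary a c d x hq hw e3 e4
        · left
          exact bary a b c x hp e1 e2 (by linarith)
  have hhull : convexHull ℝ ({a, b, c} : Set P) ∪ convexHull ℝ ({a, c, d} : Set P) ⊆ hull a b c d := by
    apply union_subset
    · exact convexHull_mono (by intro y; simp only [mem_insert_iff, mem_singleton_iff]; tauto)
    · exact convexHull_mono (by intro y; simp only [mem_insert_iff, mem_singleton_iff]; tauto)
  refine ⟨?_, fun x e1 e2 e3 e4 => hhull (hsub x e1 e2 e3 e4)⟩
  have hE : hull a b c d ⊆ {x : P | (0 ≤ cr (b - a) (x - a) ∧ 0 ≤ cr (c - b) (x - b)) ∧ 0 ≤ cr (d - c) (x - c) ∧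
      0 ≤ cr (a - d) (x - d)} := by
    apply convexHull_min
    · intro y hy
      simp only [mem_insert_iff, mem_singleton_iff] at hy
      have l1 : cr (c - b) (a - b) = cr (b - a) (c - a) := by
        simp only [cr, Prod.fst_sub, Prod.snd_sub]
        ring
      have l2 : cr (d - c) (a - c) = cr (c - a) (d - a) := by
        simp only [cr, Prod.fst_sub, Prod.snd_sub]
        ring
      have l3 : cr (d - c) (b - c) = cr (c - b) (d - b) := by
        simp only [cr, Prod.fst_sub, Prod.snd_sub]
        ring
      have l4 : cr (a - d) (b - d) = cr (b - a) (d - a) := by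
        simp only [cr, Prod.fst_sub, Prod.snd_sub]
        ring
      have l5 : cr (a - d) (c - d) = cr (c - a) (d - a) := by
        simp only [cr, Prod.fst_sub, Prod.snd_sub]
        ring
      have l6 : ∀ u v : P, cr u (v - v) = 0 := by
        intro u v
        simp only [cr, Prod.fst_sub, Prod.snd_sub]
        ring
      have l7 : ∀ u v : P, cr (u - v) (u - v) = 0 := by
        intro u v
        simp only [cr, Prod.fst_sub, Prod.snd_sub]
        ring
      rcases hy with rfl | rfl | rfl | rfl
      · simp only [mem_ofPred_eq, l6, l7, l1, l2]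
        exact ⟨⟨le_rfl, h1⟩, h2, le_rfl⟩
      · simp only [mem_ofPred_eq, l6, l7, l3, l4]
        exact ⟨⟨le_rfl, le_rfl⟩, h4, h3⟩
      · simp only [mem_ofPred_eq, l6, l7, l5]
        exact ⟨⟨h1, le_rfl⟩, le_rfl, h2⟩
      · simp only [mem_ofPred_eq, l6, l7]
        exact ⟨⟨h3, h4⟩, le_rfl, le_rfl⟩
    · intro y hy z hz s t hs ht hst
      simp only [mem_ofPred_eq] at hy hz ⊢
      have lin : ∀ u v : P, cr u (s • y + t • z - v) = s * cr u (y - v) + t * cr u (z - v) := by
        intro u v
        have hv : s = 1 - t := by linarith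
        subst hv
        simp only [cr, Prod.fst_sub, Prod.snd_sub, Prod.fst_add, Prod.snd_add, Prod.smul_fst, Prod.smul_snd,
          smul_eq_mul]
        ring
      simp only [lin]
      obtain ⟨⟨y1, y2⟩, y3, y4⟩ := hy
      obtain ⟨⟨z1, z2⟩, z3, z4⟩ := hz
      exact ⟨⟨by positivity, by positivity⟩, by positivity, by positivity⟩
  have hle : hull a b c d ⊆ convexHull ℝ ({a, b, c} : Set P) ∪ convexHull ℝ ({a, c, d} : Set P) := by
    intro x hx
    have h := hE hx
    exact hsub x h.1.1 h.1.2 h.2.1 h.2.2
  have v1 : volume (convexHull ℝ ({a, b, c} : Set P)) ≤ ENNReal.ofReal (|cr (b - a) (c - a)| / 2) :=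
    Pool.Agent.Helper484.Crit.FG.volume_triangle_le a b c
  have v2 : volume (convexHull ℝ ({a, c, d} : Set P)) ≤ ENNReal.ofReal (|cr (c - a) (d - a)| / 2) :=
    Pool.Agent.Helper484.Crit.FG.volume_triangle_le a c d
  calc volume (hull a b c d) ≤ volume (convexHull ℝ ({a, b, c} : Set P) ∪ convexHull ℝ ({a, c, d} : Set P)) :=
        measure_mono hle
    _ ≤ volume (convexHull ℝ ({a, b, c} : Set P)) + volume (convexHull ℝ ({a, c, d} : Set P)) := measure_union_le _ _
    _ ≤ ENNReal.ofReal (|cr (b - a) (c - a)| / 2) + ENNReal.ofReal (|cr (c - a) (d - a)| / 2) := add_le_add v1 v2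
    _ = ENNReal.ofReal (cr (c - a) (d - b) / 2) := by
      rw [abs_of_nonneg h1, abs_of_nonneg h2, ← ENNReal.ofReal_add (by positivity) (by positivity), ← hpq]
      congr 1
      ring

end Pool.Agent.N602.CQ
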